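import Pool.Agent.Helper88.MD.Gauss

/-!
The Pólya–Vinogradov inequality (weak form, all non-principal characters).
-/

set_option autoImplicit false

namespace Pool.Agent.Helper88.MD

open Finset Pool.Agent.Helper25 Pool.Agent.Helper25.MD

/-- `φ(g m) ≤ g φ(m)` -/
lemma totient_mul_le' (g m : ℕ) (hg : 0 < g) (hm : 0 < m) :
    (g * m).totient ≤ g * m.totient := by
  have h1 : ((g * m).totient : ℚ) ≤ ((g * m.totient : ℕ) : ℚ) := by
    rw [Nat.totient_eq_mul_prod_factors]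
    push_cast
    rw [Nat.totient_eq_mul_prod_factors m]
    have h2 : ∏ p ∈ (g * m).primeFactors, (1 - (p : ℚ)⁻¹) ≤
        ∏ p ∈ m.primeFactors, (1 - (p : ℚ)⁻¹) := by
      have hsub : m.primeFactors ⊆ (g * m).primeFactors :=
        Nat.primeFactors_mono (Dvd.intro_left g rfl) (by positivity)
      rw [← Finset.prod_sdiff hsub]
      have h3 : ∏ p ∈ (g * m).primeFactors \ m.primeFactors, (1 - (p : ℚ)⁻¹) ≤ 1 := by
        apply Finset.prod_le_one
        · intro p hp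
          have hp' := Nat.prime_of_mem_primeFactors (Finset.mem_sdiff.1 hp).1
          have : (p : ℚ)⁻¹ ≤ 1 := inv_le_one_of_one_le₀ (by exact_mod_cast hp'.one_le)
          linarith
        · intro p hp
          have hp' := Nat.prime_of_mem_primeFactors (Finset.mem_sdiff.1 hp).1
          have : (0 : ℚ) < (p : ℚ)⁻¹ := inv_pos.2 (by exact_mod_cast hp'.pos)
          linarith
      have h4 : 0 ≤ ∏ p ∈ m.primeFactors, (1 - (p : ℚ)⁻¹) := by
        apply Finset.prod_nonneg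
        intro p hp
        have hp' := Nat.prime_of_mem_primeFactors hp
        have : (p : ℚ)⁻¹ ≤ 1 := inv_le_one_of_one_le₀ (by exact_mod_cast hp'.one_le)
        linarith
      calc _ ≤ 1 * ∏ p ∈ m.primeFactors, (1 - (p : ℚ)⁻¹) := mul_le_mul_of_nonneg_right h3 h4
        _ = _ := one_mul _
    calc ((g : ℚ) * m) * ∏ p ∈ (g * m).primeFactors, (1 - (p : ℚ)⁻¹)
        ≤ ((g : ℚ) * m) * ∏ p ∈ m.primeFactors, (1 - (p : ℚ)⁻¹) :=
          mul_le_mul_of_nonneg_left h2 (by positivity)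
      _ = _ := by ring
  exact_mod_cast h1

lemma GS_bound {q : ℕ} [NeZero q] (ψ : DirichletCharacter ℂ q) (h : ℕ) :
    ‖GS ψ (h : ZMod q)‖ ≤ √(q * Nat.gcd h q) := by
  have h1 := gaussBound q ψ h
  rw [GS_eq] at h1
  have hq : 0 < q := Nat.pos_of_ne_zero (NeZero.ne q)
  set g := Nat.gcd h q with hg
  have hgq : g ∣ q := Nat.gcd_dvd_right _ _
  have hg0 : 0 < g := Nat.gcd_pos_of_pos_right _ hq
  have hdiv : g * (q / g) = q := Nat.mul_div_cancel' hgq
  have hqg : 0 < q / g := Nat.div_pos (Nat.le_of_dvd hq hgq) hg0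
  have h2 := totient_mul_le' g (q / g) hg0 hqg
  rw [hdiv] at h2
  have h3 : (q.totient : ℝ) ≤ g * ((q / g).totient : ℝ) := by exact_mod_cast h2
  have h4 : (0 : ℝ) < ((q / g).totient : ℝ) := by exact_mod_cast Nat.totient_pos.2 hqg
  have h5 : ‖GS ψ (h : ZMod q)‖ ^ 2 * ((q / g).totient : ℝ) ≤
      (q * g) * ((q / g).totient : ℝ) := by
    refine h1.trans ?_
    calc (q : ℝ) * (q.totient : ℝ) ≤ q * (g * ((q / g).totient : ℝ)) :=
          mul_le_mul_of_nonneg_left h3 (by positivity)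
      _ = _ := by ring
  have h6 := le_of_mul_le_mul_right h5 h4
  exact Real.le_sqrt_of_sq_le h6

/-- Fourier inversion -/
lemma inversion {q : ℕ} [NeZero q] (ψ : DirichletCharacter ℂ q) (n : ZMod q) :
    (q : ℂ) * ψ n = ∑ k : ZMod q, GS ψ k * ZMod.stdAddChar (-(k * n)) := by
  unfold GS
  simp only [Finset.sum_mul]
  rw [Finset.sum_comm]
  have h1 : ∀ b : ZMod q, ∑ k : ZMod q, ψ b * ZMod.stdAddChar (k * b) *
      ZMod.stdAddChar (-(k * n)) = ψ b * (if b - n = 0 then (q : ℂ) else 0) := by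
    intro b
    rw [← sum_std, Finset.mul_sum]
    apply Finset.sum_congr rfl
    intro k _
    rw [mul_assoc, ← AddChar.map_add_eq_mul]
    congr 2
    ring
  simp only [h1]
  rw [Finset.sum_eq_single n]
  · rw [sub_self, if_pos rfl, mul_comm]
  · intro b _ hb
    rw [if_neg (sub_ne_zero.2 hb), mul_zero]
  · intro h; exact absurd (Finset.mem_univ n) h

lemma GS_zero {q : ℕ} [NeZero q] (ψ : DirichletCharacter ℂ q) (hψ : ψ ≠ 1) : GS ψ 0 = 0 := by
  unfold GS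
  simp only [zero_mul, AddChar.map_zero_eq_one, mul_one]
  exact MulChar.sum_eq_zero_of_ne_one hψ

/-- `|sin (π h / q)| ≥ 2 min(h, q - h) / q` in inverted form -/
lemma inv_sin_le {q h : ℕ} (h1 : 1 ≤ h) (h2 : h < q) :
    Real.sin (Real.pi * (h / q)) ≠ 0 ∧
    1 / |Real.sin (Real.pi * (h / q))| ≤ q / 2 * (1 / h + 1 / ((q - h : ℕ) : ℝ)) := by
  have hq : (0 : ℝ) < q := by exact_mod_cast (by omega : 0 < q)
  have hh : (0 : ℝ) < h := by exact_mod_cast h1
  have hqh : (0 : ℝ) < ((q - h : ℕ) : ℝ) := by exact_mod_cast (by omega : 0 < q - h)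
  have e1 : ((q - h : ℕ) : ℝ) = q - h := by rw [Nat.cast_sub h2.le]
  have key : ∀ t : ℕ, 1 ≤ t → 2 * t ≤ q →
      2 * (t : ℝ) / q ≤ Real.sin (Real.pi * (t / q)) := by
    intro t ht htq
    have ht' : (2 : ℝ) * t ≤ q := by exact_mod_cast htq
    have h3 : Real.pi * (t / q) ≤ Real.pi / 2 := by
      have : (t : ℝ) / q ≤ 1 / 2 := by
        rw [div_le_div_iff₀ hq (by norm_num)]; linarith
      nlinarith [Real.pi_pos]
    have h4 := Real.mul_le_sin (x := Real.pi * (t / q)) (by positivity) h3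
    have e : 2 / Real.pi * (Real.pi * (t / q)) = 2 * (t : ℝ) / q := by
      field_simp
    rw [e] at h4
    exact h4
  have main : ∀ t : ℕ, 1 ≤ t → 2 * t ≤ q → 0 < Real.sin (Real.pi * (t / q)) ∧
      1 / |Real.sin (Real.pi * (t / q))| ≤ q / 2 * (1 / t) := by
    intro t ht htq
    have h5 := key t ht htq
    have ht0 : (0 : ℝ) < t := by exact_mod_cast ht
    have h6 : 0 < 2 * (t : ℝ) / q := by positivity
    have h7 : 0 < Real.sin (Real.pi * (t / q)) := lt_of_lt_of_le h6 h5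
    refine ⟨h7, ?_⟩
    rw [abs_of_pos h7]
    calc 1 / Real.sin (Real.pi * (t / q)) ≤ 1 / (2 * (t : ℝ) / q) :=
          one_div_le_one_div_of_le h6 h5
      _ = _ := by field_simp
  rcases le_total (2 * h) q with hc | hc
  · obtain ⟨h8, h9⟩ := main h h1 hc
    refine ⟨h8.ne', h9.trans ?_⟩
    have : 0 ≤ q / 2 * (1 / ((q - h : ℕ) : ℝ)) := by positivity
    linarith
  · obtain ⟨h8, h9⟩ := main (q - h) (by omega) (by omega)
    have e2 : Real.sin (Real.pi * (((q - h : ℕ) : ℝ) / q)) = Real.sin (Real.pi * (h / q)) := by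
      rw [e1, ← Real.sin_pi_sub (Real.pi * (h / q))]
      congr 1
      field_simp
    rw [e2] at h8 h9
    refine ⟨h8.ne', h9.trans ?_⟩
    have : 0 ≤ q / 2 * (1 / (h : ℝ)) := by positivity
    linarith

/-- the geometric sum over an initial segment -/
lemma geom_std {q : ℕ} [NeZero q] {h : ℕ} (h1 : 1 ≤ h) (h2 : h < q) (N : ℕ) :
    ‖∑ n ∈ range N, (ZMod.stdAddChar (-((h : ZMod q) * (n : ZMod q))) : ℂ)‖ ≤
      q / 2 * (1 / h + 1 / ((q - h : ℕ) : ℝ)) := by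
  obtain ⟨h3, h4⟩ := inv_sin_le h1 h2
  have h5 : Real.sin (Real.pi * (-(h / q) : ℝ)) ≠ 0 := by
    rw [mul_neg, Real.sin_neg]; exact neg_ne_zero.2 h3
  have h6 := geom_le h5 N
  rw [mul_neg, Real.sin_neg, abs_neg] at h6
  have e : ∀ n : ℕ, ex (-(h / q : ℝ) * n) =
      (ZMod.stdAddChar (-((h : ZMod q) * (n : ZMod q))) : ℂ) := by
    intro n
    have := ex_eq_std (q := q) (-((h * n : ℕ) : ℤ))
    push_cast at this
    rw [← this]
    congr 1
    ring
  simp only [e] at h6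
  exact h6.trans h4

/-- the weighted divisor sum -/
lemma gcd_sum (q : ℕ) (hq : 1 ≤ q) :
    ∑ h ∈ Ico 1 q, √(Nat.gcd h q) * (1 / (h : ℝ)) ≤ (q.divisors.card : ℝ) * (1 + Real.log q) := by
  have hharm : ∑ m ∈ Ico 1 q, (1 : ℝ) / m ≤ 1 + Real.log q := by
    have h1 := harmonic_le_one_add_log q
    refine le_trans ?_ h1
    rw [harmonic_eq_sum_Icc]
    push_cast
    have : ∑ m ∈ Ico 1 q, (1 : ℝ) / m = ∑ m ∈ Ico 1 q, ((m : ℝ))⁻¹ :=
      Finset.sum_congr rfl (fun m _ => one_div _)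
    rw [this]
    apply Finset.sum_le_sum_of_subset_of_nonneg
    · exact Finset.Ico_subset_Icc_self
    · intro i _ _; positivity
  have h2 : ∀ h ∈ Ico 1 q, √(Nat.gcd h q) * (1 / (h : ℝ)) ≤
      ∑ g ∈ q.divisors, (if g ∣ h then √g * (1 / (h : ℝ)) else 0) := by
    intro h _
    have hmem : Nat.gcd h q ∈ q.divisors :=
      Nat.mem_divisors.2 ⟨Nat.gcd_dvd_right _ _, by omega⟩
    have h3 := Finset.single_le_sum (f := fun g : ℕ => (if g ∣ h then √(g : ℝ) * (1 / (h : ℝ)) else 0))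
      (fun g _ => by split_ifs <;> positivity) hmem
    simp only [Nat.gcd_dvd_left, if_true] at h3
    exact h3
  refine (Finset.sum_le_sum h2).trans ?_
  rw [Finset.sum_comm]
  rw [← nsmul_eq_mul, ← Finset.sum_const]
  apply Finset.sum_le_sum
  intro g hg
  have hg' := Nat.mem_divisors.1 hg
  have hg0 : 0 < g := Nat.pos_of_dvd_of_pos hg'.1 (by omega)
  have hg1 : (1 : ℝ) ≤ g := by exact_mod_cast hg0
  rw [← Finset.sum_filter]
  have h4 : ∑ h ∈ (Ico 1 q).filter (fun h => g ∣ h), √(g : ℝ) * (1 / (h : ℝ)) ≤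
      ∑ m ∈ Ico 1 q, √(g : ℝ) * (1 / ((g * m : ℕ) : ℝ)) := by
    have h5 : (Ico 1 q).filter (fun h => g ∣ h) ⊆ (Ico 1 q).image (fun m => g * m) := by
      intro h hh
      rw [Finset.mem_filter, Finset.mem_Ico] at hh
      obtain ⟨⟨ha, hb⟩, m, rfl⟩ := hh
      rw [Finset.mem_image]
      refine ⟨m, Finset.mem_Ico.2 ⟨?_, ?_⟩, rfl⟩
      · exact Nat.pos_of_ne_zero (fun h0 => by rw [h0] at ha; simp at ha)
      · exact lt_of_le_of_lt (Nat.le_mul_of_pos_left m hg0) hb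
    calc ∑ h ∈ (Ico 1 q).filter (fun h => g ∣ h), √(g : ℝ) * (1 / (h : ℝ))
        ≤ ∑ h ∈ (Ico 1 q).image (fun m => g * m), √(g : ℝ) * (1 / (h : ℝ)) :=
          Finset.sum_le_sum_of_subset_of_nonneg h5 (fun i _ _ => by positivity)
      _ = _ := by
          rw [Finset.sum_image]
          intro a _ b _ hab
          exact Nat.eq_of_mul_eq_mul_left hg0 hab
  refine h4.trans ?_
  have h6 : ∑ m ∈ Ico 1 q, √(g : ℝ) * (1 / ((g * m : ℕ) : ℝ)) =
      (√(g : ℝ) / g) * ∑ m ∈ Ico 1 q, (1 : ℝ) / m := by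
    rw [Finset.mul_sum]
    apply Finset.sum_congr rfl
    intro m _
    push_cast
    rw [div_mul_div_comm, mul_one, mul_one_div]
  rw [h6]
  have h7 : √(g : ℝ) / g ≤ 1 := by
    rw [div_le_one (by positivity)]
    calc √(g : ℝ) ≤ √((g : ℝ) ^ 2) := Real.sqrt_le_sqrt (by nlinarith)
      _ = g := Real.sqrt_sq (by positivity)
  have h8 : 0 ≤ ∑ m ∈ Ico 1 q, (1 : ℝ) / m := Finset.sum_nonneg (fun _ _ => by positivity)
  calc (√(g : ℝ) / g) * ∑ m ∈ Ico 1 q, (1 : ℝ) / m ≤ 1 * ∑ m ∈ Ico 1 q, (1 : ℝ) / m :=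
        mul_le_mul_of_nonneg_right h7 h8
    _ ≤ 1 + Real.log q := by rw [one_mul]; exact hharm

lemma pv_raw {q : ℕ} [NeZero q] (ψ : DirichletCharacter ℂ q) (hψ : ψ ≠ 1) (N : ℕ) :
    ‖∑ n ∈ range N, ψ (n : ZMod q)‖ ≤ √q * ((q.divisors.card : ℝ) * (1 + Real.log q)) := by
  have hq : 0 < q := Nat.pos_of_ne_zero (NeZero.ne q)
  have hqr : (0 : ℝ) < q := by exact_mod_cast hq
  have e1 : (q : ℂ) * ∑ n ∈ range N, ψ (n : ZMod q) =
      ∑ h ∈ Ico 1 q, GS ψ (h : ZMod q) *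
        ∑ n ∈ range N, (ZMod.stdAddChar (-((h : ZMod q) * (n : ZMod q))) : ℂ) := by
    rw [Finset.mul_sum]
    simp only [inversion]
    rw [Finset.sum_comm]
    rw [← sum_range_zmod (fun k => ∑ n ∈ range N, GS ψ k *
      (ZMod.stdAddChar (-(k * (n : ZMod q))) : ℂ))]
    rw [Finset.range_eq_Ico, Finset.sum_eq_sum_Ico_succ_bot hq]
    rw [show ((0 : ℕ) : ZMod q) = 0 from Nat.cast_zero, GS_zero ψ hψ]
    simp only [zero_mul, Finset.sum_const_zero, zero_add]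
    apply Finset.sum_congr rfl
    intro h _
    rw [Finset.mul_sum]
  have h1 : (q : ℝ) * ‖∑ n ∈ range N, ψ (n : ZMod q)‖ ≤
      ∑ h ∈ Ico 1 q, √(q * Nat.gcd h q) * (q / 2 * (1 / h + 1 / ((q - h : ℕ) : ℝ))) := by
    have : ‖(q : ℂ) * ∑ n ∈ range N, ψ (n : ZMod q)‖ = (q : ℝ) * ‖∑ n ∈ range N, ψ (n : ZMod q)‖ := by
      rw [norm_mul, Complex.norm_natCast]
    rw [← this, e1]
    refine (norm_sum_le _ _).trans (Finset.sum_le_sum (fun h hh => ?_))
    rw [Finset.mem_Ico] at hh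
    rw [norm_mul]
    exact mul_le_mul (GS_bound ψ h) (geom_std hh.1 hh.2 N) (norm_nonneg _) (Real.sqrt_nonneg _)
  have h2 : ∑ h ∈ Ico 1 q, √(q * Nat.gcd h q) * (q / 2 * (1 / h + 1 / ((q - h : ℕ) : ℝ))) =
      q * (√q * ∑ h ∈ Ico 1 q, √(Nat.gcd h q) * (1 / (h : ℝ))) := by
    have h3 : ∑ h ∈ Ico 1 q, √(q * Nat.gcd h q) * (q / 2 * (1 / ((q - h : ℕ) : ℝ))) =
        ∑ h ∈ Ico 1 q, √(q * Nat.gcd h q) * (q / 2 * (1 / (h : ℝ))) := by
      refine Finset.sum_nbij' (fun h => q - h) (fun h => q - h) ?_ ?_ ?_ ?_ ?_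
      · intro h hh; rw [Finset.mem_Ico] at hh ⊢; omega
      · intro h hh; rw [Finset.mem_Ico] at hh ⊢; omega
      · intro h hh; rw [Finset.mem_Ico] at hh; omega
      · intro h hh; rw [Finset.mem_Ico] at hh; omega
      · intro h hh
        rw [Finset.mem_Ico] at hh
        have : Nat.gcd (q - h) q = Nat.gcd h q := by
          rw [Nat.gcd_comm, Nat.gcd_self_sub_right hh.2.le, Nat.gcd_comm]
        rw [this]
    have h4 : ∀ h : ℕ, √(q * Nat.gcd h q) * (q / 2 * (1 / (h : ℝ) + 1 / ((q - h : ℕ) : ℝ))) =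
        √(q * Nat.gcd h q) * (q / 2 * (1 / (h : ℝ))) +
        √(q * Nat.gcd h q) * (q / 2 * (1 / ((q - h : ℕ) : ℝ))) := fun h => by ring
    simp only [h4]
    rw [Finset.sum_add_distrib, h3, Finset.mul_sum, Finset.mul_sum, ← Finset.sum_add_distrib]
    apply Finset.sum_congr rfl
    intro h _
    rw [Real.sqrt_mul hqr.le]
    ring
  rw [h2] at h1
  have h5 := le_of_mul_le_mul_left h1 hqr
  exact h5.trans (mul_le_mul_of_nonneg_left (gcd_sum q hq) (Real.sqrt_nonneg _))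

theorem pv : PV := by
  obtain ⟨C, hC⟩ := divisorBound (1 / 40) (by norm_num)
  refine ⟨C * 41, fun q _ ψ hψ N => ?_⟩
  have hq : 0 < q := Nat.pos_of_ne_zero (NeZero.ne q)
  have hq1 : (1 : ℝ) ≤ q := by exact_mod_cast hq
  have hq0 : (0 : ℝ) < q := by linarith
  refine (pv_raw ψ hψ N).trans ?_
  have h1 := hC q hq
  have hC0 : 0 ≤ C := by
    have h2 : (0 : ℝ) ≤ C * (q : ℝ) ^ ((1 : ℝ) / 40) := le_trans (Nat.cast_nonneg _) h1
    exact le_of_mul_le_mul_right (by rw [zero_mul]; exact h2) (Real.rpow_pos_of_pos hq0 _)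
  have h3 : 1 + Real.log q ≤ 41 * (q : ℝ) ^ ((1 : ℝ) / 40) := by
    have h4 := Real.log_le_rpow_div hq0.le (show (0 : ℝ) < 1 / 40 by norm_num)
    have h5 : (1 : ℝ) ≤ (q : ℝ) ^ ((1 : ℝ) / 40) := Real.one_le_rpow hq1 (by norm_num)
    have h6 : (q : ℝ) ^ ((1 : ℝ) / 40) / (1 / 40) = 40 * (q : ℝ) ^ ((1 : ℝ) / 40) := by ring
    rw [h6] at h4
    linarith
  have h7 : (0 : ℝ) ≤ 1 + Real.log q := by
    have := Real.log_nonneg hq1; linarith
  have e : (q : ℝ) ^ ((11 : ℝ) / 20) = √q * ((q : ℝ) ^ ((1 : ℝ) / 40) * (q : ℝ) ^ ((1 : ℝ) / 40)) := by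
    rw [Real.sqrt_eq_rpow, ← Real.rpow_add hq0, ← Real.rpow_add hq0]
    norm_num
  rw [e]
  calc √q * ((q.divisors.card : ℝ) * (1 + Real.log q))
      ≤ √q * ((C * (q : ℝ) ^ ((1 : ℝ) / 40)) * (41 * (q : ℝ) ^ ((1 : ℝ) / 40))) := by
        apply mul_le_mul_of_nonneg_left _ (Real.sqrt_nonneg _)
        exact mul_le_mul h1 h3 h7 (by positivity)
    _ = _ := by ring

end Pool.Agent.Helper88.MD
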